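import Pool.Agent.H37.CA.Targets

/-!
Module NGN of the board cma_modules: the characters which are equal to a conjugate.
-/

set_option autoImplicit false

open NumberField Filter Topology

namespace Pool.Agent.H46.CA

open Pool.Agent.H37.CA Pool.Agent.H37.CV Pool.Agent.H28.RC Pool.Agent.H25 Pool.Agent.H25.HK

open scoped Pointwise

theorem cj_eq {F : Type} [Field F] [NumberField F] (σ : F ≃ₐ[ℚ] F) (I : Ideal (𝓞 F)) :
    cj σ I = σ • I := rfl

theorem absNorm_smul' {F : Type} [Field F] [NumberField F] (σ : F ≃ₐ[ℚ] F) (I : Ideal (𝓞 F)) :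
    Ideal.absNorm (σ • I) = Ideal.absNorm I := by
  rw [Ideal.absNorm_apply, Ideal.absNorm_apply, Submodule.cardQuot_apply,
    Submodule.cardQuot_apply]
  exact Nat.card_congr (Ideal.quotientEquiv I (σ • I) (MulSemiringAction.toRingAut
    (F ≃ₐ[ℚ] F) (𝓞 F) σ) rfl).symm.toEquiv

theorem smul_qi {F : Type} [Field F] [NumberField F] (σ : F ≃ₐ[ℚ] F) (q : ℕ) :
    σ • qi F q = qi F q := by
  rw [qi, ← cj_eq, cj, Ideal.map_span, Set.image_singleton, map_natCast]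

/-- conjugate Frobenius elements -/
theorem fro_conj {F L : Type} [Field F] [NumberField F] [Field L] [NumberField L] [Algebra F L]
    (P : Ideal (𝓞 F)) (γ δ : L ≃ₐ[F] L) (g : L ≃ₐ[ℚ] L) (σ : F ≃ₐ[ℚ] F)
    (hg : ∀ x : F, g (algebraMap F L x) = algebraMap F L (σ x))
    (hδ : ∀ x : L, δ x = g (γ (g.symm x))) (h : Fro P γ) : Fro (σ • P) δ := by
  obtain ⟨Q, hQ, hQP, hQF⟩ := h
  refine ⟨g • Q, inferInstance, ?_, ?_⟩
  · ext x
    rw [Ideal.under, Ideal.mem_comap, Ideal.mem_pointwise_smul_iff_inv_smul_mem,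
      Ideal.mem_pointwise_smul_iff_inv_smul_mem, ← hQP, Ideal.under, Ideal.mem_comap]
    have h1 : g⁻¹ • (algebraMap (𝓞 F) (𝓞 L) x) = algebraMap (𝓞 F) (𝓞 L) (σ⁻¹ • x) := by
      apply RingOfIntegers.ext
      change g.symm (algebraMap F L (x : F)) = algebraMap F L (σ.symm (x : F))
      rw [AlgEquiv.symm_apply_eq, hg, AlgEquiv.apply_symm_apply]
    rw [h1]
  · intro x
    rw [absNorm_smul', Ideal.mem_pointwise_smul_iff_inv_smul_mem, smul_sub, smul_pow']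
    have h1 : g⁻¹ • δ • x = γ • g⁻¹ • x := by
      apply RingOfIntegers.ext
      change g.symm (δ (x : L)) = γ (g.symm (x : L))
      rw [hδ, AlgEquiv.symm_apply_apply]
    rw [h1]
    exact hQF _

theorem pf_NGN (hGRF : H37.CA.T_GRF) (hFRE : H28.RC.T_FRE) : H37.CA.T_NGN := by
  intro F L _ _ _ _ _ _ _ _ q hq β hβ ψ hψ hgen
  obtain ⟨hnorm, -, hlift, hres, hσ'⟩ := hGRF F L
  have hgen' : ∃ g : L ≃ₐ[ℚ] L, g ∉ HF F L ∧ ∀ (a : HF F L) (h : g⁻¹ * a * g ∈ HF F L),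
      β ψ ⟨g⁻¹ * a * g, h⟩ = β ψ a := by
    rw [Gen, Set.mem_ofPred_eq] at hgen
    push Not at hgen
    exact hgen
  obtain ⟨g, hgF, hgψ⟩ := hgen'
  obtain ⟨σ, hσ1, hσ⟩ := hσ' g hgF
  refine ⟨σ, hσ1, ?_⟩
  set m : Ideal (𝓞 F) := qi F q with hm
  have hpc : PC m ψ := hψ.1
  have hsup : ∀ I : Ideal (𝓞 F), (σ • I) ⊔ m = ⊤ ↔ I ⊔ m = ⊤ := by
    intro I
    have h1 : (σ • I) ⊔ m = σ • (I ⊔ m) := by
      have h2 := smul_qi σ q
      rw [← hm] at h2
      conv_lhs => rw [← h2]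
      rw [← cj_eq, ← cj_eq, ← cj_eq, cj, cj, cj, Ideal.map_sup]
    rw [h1]
    constructor
    · intro h
      have h3 := congrArg (fun J => σ⁻¹ • J) h
      simp only [inv_smul_smul] at h3
      rw [h3, ← cj_eq, cj, Ideal.map_top]
    · intro h
      rw [h, ← cj_eq, cj, Ideal.map_top]
  have hprime : ∀ P : Ideal (𝓞 F), P.IsPrime → P ≠ ⊥ → ψ (σ • P) = ψ P := by
    intro P hP hP0
    by_cases hPm : P ⊔ m = ⊤
    · have : IsGalois F L := IsGalois.tower_top_of_isGalois ℚ F L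
      obtain ⟨γ, hγ⟩ := (hFRE F L).1 P hP hP0
      set a : HF F L := ⟨g * γ.restrictScalars ℚ * g⁻¹,
        hnorm.conj_mem _ (hres γ) g⟩ with ha
      obtain ⟨δ, hδ⟩ := hlift a a.2
      have hfro : Fro (σ • P) δ := by
        refine fro_conj P γ δ g σ hσ (fun x => ?_) hγ
        have h1 := congrArg (fun f : L ≃ₐ[ℚ] L => f x) hδ
        exact h1
      have h1 := hβ.2 ψ hψ P γ ⟨γ.restrictScalars ℚ, hres γ⟩ hPm hγ rfl
      have h2 := hβ.2 ψ hψ (σ • P) δ a ((hsup P).mpr hPm) hfro hδ.symm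
      have h3 : g⁻¹ * (a : L ≃ₐ[ℚ] L) * g = γ.restrictScalars ℚ := by
        rw [ha]
        group
      have h4 : g⁻¹ * (a : L ≃ₐ[ℚ] L) * g ∈ HF F L := by rw [h3]; exact hres γ
      have h5 := hgψ a h4
      have h6 : (⟨g⁻¹ * (a : L ≃ₐ[ℚ] L) * g, h4⟩ : HF F L) = ⟨γ.restrictScalars ℚ, hres γ⟩ :=
        Subtype.ext h3
      rw [h6] at h5
      rw [h1, h2, h5]
    · rw [hpc.zero P hPm, hpc.zero (σ • P) (fun h => hPm ((hsup P).mp h))]
  intro I
  rw [cj_eq]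
  induction I using UniqueFactorizationMonoid.induction_on_prime with
  | h₁ =>
    have h1 : σ • (0 : Ideal (𝓞 F)) = 0 := by
      rw [← cj_eq, cj, Ideal.zero_eq_bot, Ideal.map_bot]
    rw [h1]
  | h₂ I hI =>
    have h0 : I = ⊤ := by
      rw [Ideal.isUnit_iff] at hI
      exact hI
    rw [h0, ← cj_eq, cj, Ideal.map_top]
  | h₃ I P hI hP ih =>
    have hP' : P.IsPrime := Ideal.isPrime_of_prime hP
    have hP0 : P ≠ ⊥ := hP.ne_zero
    have h1 : σ • (P * I) = (σ • P) * (σ • I) := by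
      rw [← cj_eq, ← cj_eq, ← cj_eq, cj, cj, cj, Ideal.map_mul]
    rw [h1, hpc.mul, hpc.mul, hprime P hP' hP0, ih]

end Pool.Agent.H46.CA
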