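import Pool.Agent.H37.CA.Targets2
import Pool.Agent.H46.CA.NGN

/-!
Module NGY of the board cma_modules: the characters whose inverse is a conjugate.
-/

set_option autoImplicit false

open NumberField Filter Topology

namespace Pool.Agent.H46.CA

open Pool.Agent.H37.CA Pool.Agent.H37.CV Pool.Agent.H28.RC Pool.Agent.H25 Pool.Agent.H25.HK

open scoped Pointwise

theorem pf_NGY (hGRF : H37.CA.T_GRF) (hFRE : H28.RC.T_FRE) : H37.CA.T_NGY := by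
  intro F L _ _ _ _ _ _ _ _ q hq β hβ ψ hψ hgen
  obtain ⟨hnorm, -, hlift, hres, hσ'⟩ := hGRF F L
  have hgen' : ∃ g : L ≃ₐ[ℚ] L, ∀ (a : HF F L) (h : g⁻¹ * a * g ∈ HF F L),
      β ψ ⟨g⁻¹ * a * g, h⟩ * β ψ a = 1 := by
    rw [Nsd, Set.mem_ofPred_eq] at hgen
    push Not at hgen
    exact hgen
  obtain ⟨g, hgψ⟩ := hgen'
  have hσex : ∃ σ : F ≃ₐ[ℚ] F, ∀ x : F, g (algebraMap F L x) = algebraMap F L (σ x) := by
    by_cases hgF : g ∈ HF F L
    · exact ⟨1, fun x => hgF x⟩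
    · obtain ⟨σ, -, hσ⟩ := hσ' g hgF
      exact ⟨σ, hσ⟩
  obtain ⟨σ, hσ⟩ := hσex
  refine ⟨σ, ?_⟩
  set m : Ideal (𝓞 F) := qi F q with hm
  have hpc : PC m ψ := hψ.1
  have hsup : ∀ I : Ideal (𝓞 F), I ⊔ m = ⊤ → (σ • I) ⊔ m = ⊤ := by
    intro I h
    have h1 : (σ • I) ⊔ m = σ • (I ⊔ m) := by
      have h2 := smul_qi σ q
      rw [← hm] at h2
      conv_lhs => rw [← h2]
      rw [← cj_eq, ← cj_eq, ← cj_eq, cj, cj, cj, Ideal.map_sup]
    rw [h1, h, ← cj_eq, cj, Ideal.map_top]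
  have hprime : ∀ P : Ideal (𝓞 F), P.IsPrime → P ≠ ⊥ → P ⊔ m = ⊤ → ψ (σ • P) * ψ P = 1 := by
    intro P hP hP0 hPm
    have : IsGalois F L := IsGalois.tower_top_of_isGalois ℚ F L
    obtain ⟨γ, hγ⟩ := (hFRE F L).1 P hP hP0
    set a : HF F L := ⟨g * γ.restrictScalars ℚ * g⁻¹,
      hnorm.conj_mem _ (hres γ) g⟩ with ha
    obtain ⟨δ, hδ⟩ := hlift a a.2
    have hfro : Fro (σ • P) δ := by
      refine fro_conj P γ δ g σ hσ (fun x => ?_) hγ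
      have h1 := congrArg (fun f : L ≃ₐ[ℚ] L => f x) hδ
      exact h1
    have h1 := hβ.2 ψ hψ P γ ⟨γ.restrictScalars ℚ, hres γ⟩ hPm hγ rfl
    have h2 := hβ.2 ψ hψ (σ • P) δ a (hsup P hPm) hfro hδ.symm
    have h3 : g⁻¹ * (a : L ≃ₐ[ℚ] L) * g = γ.restrictScalars ℚ := by
      rw [ha]
      group
    have h4 : g⁻¹ * (a : L ≃ₐ[ℚ] L) * g ∈ HF F L := by rw [h3]; exact hres γ
    have h5 := hgψ a h4
    have h6 : (⟨g⁻¹ * (a : L ≃ₐ[ℚ] L) * g, h4⟩ : HF F L) = ⟨γ.restrictScalars ℚ, hres γ⟩ :=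
      Subtype.ext h3
    rw [h6] at h5
    rw [h1, h2, ← Units.val_mul, mul_comm, h5, Units.val_one]
  intro I
  rw [cj_eq]
  induction I using UniqueFactorizationMonoid.induction_on_prime with
  | h₁ => exact fun h => absurd rfl h
  | h₂ I hI =>
    intro _ _
    have h0 : I = ⊤ := by
      rw [Ideal.isUnit_iff] at hI
      exact hI
    rw [h0, ← cj_eq, cj, Ideal.map_top, hpc.one, one_mul]
  | h₃ I P hI hP ih =>
    intro _ hsup'
    have hP' : P.IsPrime := Ideal.isPrime_of_prime hP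
    have hP0 : P ≠ ⊥ := hP.ne_zero
    have hPm : P ⊔ m = ⊤ := top_le_iff.mp (hsup' ▸ sup_le_sup_right Ideal.mul_le_left m)
    have hIm : I ⊔ m = ⊤ := top_le_iff.mp (hsup' ▸ sup_le_sup_right Ideal.mul_le_right m)
    have h1 : σ • (P * I) = (σ • P) * (σ • I) := by
      rw [← cj_eq, ← cj_eq, ← cj_eq, cj, cj, cj, Ideal.map_mul]
    have h2 := hprime P hP' hP0 hPm
    have h3 := ih hI hIm
    rw [h1, hpc.mul, hpc.mul]
    calc ψ (σ • P) * ψ (σ • I) * (ψ P * ψ I) = (ψ (σ • P) * ψ P) * (ψ (σ • I) * ψ I) := by ring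
      _ = 1 := by rw [h2, h3, one_mul]

end Pool.Agent.H46.CA
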