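import Pool.Agent.H37.CA.Targets
import Pool.Agent.H46.CV.DL

/-!
Modules PNC and CNT of the board cma_modules.
-/

set_option autoImplicit false

open NumberField Filter Topology

namespace Pool.Agent.H46.CA

open Pool.Agent.H37.CA Pool.Agent.H37.CV Pool.Agent.H28.RC Pool.Agent.H25 Pool.Agent.H25.HK

theorem finsum_one {α : Type} (s : Set α) : (∑ᶠ i ∈ s, (1 : ℂ)) = (s.ncard : ℂ) := by
  by_cases hs : s.Finite
  · rw [finsum_mem_eq_finite_toFinset_sum _ hs, Finset.sum_const, nsmul_eq_mul, mul_one,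
      Set.ncard_eq_toFinset_card _ hs]
  · rw [Set.Infinite.ncard hs]
    rw [finsum_mem_eq_zero_of_infinite]
    · simp
    · rw [Function.support_const (one_ne_zero)]
      simpa using hs

theorem pf_PNC (hIE : H37.CV.T_IE) (hHQ : H37.CV.T_HQ) : H37.CA.T_PNC := by
  intro K _ _ _ ε hε
  set n : ℕ := Module.finrank ℚ K with hn
  obtain ⟨c, C, q₃, hc, hq3⟩ := hHQ K
  have h1 : Tendsto (fun q : ℕ => (2 ^ n * 2 ^ n * |C|) * (q : ℝ) ^ (-(1 / 2) : ℝ)) atTop (𝓝 0) := by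
    have := (tendsto_rpow_neg_atTop (show (0 : ℝ) < 1 / 2 by norm_num)).comp
      tendsto_natCast_atTop_atTop
    simpa using this.const_mul (2 ^ n * 2 ^ n * |C|)
  obtain ⟨q₄, hq4⟩ := eventually_atTop.1 (h1.eventually (gt_mem_nhds hε))
  refine ⟨max q₃ q₄, fun q hq hqq => ?_⟩
  have hqc : q₃ ≤ q := (le_max_left _ _).trans hqq
  have hqd : q₄ ≤ q := (le_max_right _ _).trans hqq
  obtain ⟨hfin, T, σ, hT, hσ, hsum⟩ := hIE K q hq
  set N : ℝ := (nc (qi K q) (qi K q) : ℝ) with hN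
  obtain ⟨hc1, hc2⟩ := hq3 q hq hqc
  have hq0 : (0 : ℝ) < q := by exact_mod_cast hq.pos
  have hNpos : 0 < N := lt_of_lt_of_le (by positivity) hc1
  have h2 := hsum (fun _ => 1)
  rw [finsum_one, finsum_one] at h2
  have h4 : ((Pr K (qi K q)).ncard : ℂ) - (nc (qi K q) (qi K q) : ℂ) =
      ∑ d ∈ T, (σ d : ℂ) * (nc (qi K q) d : ℂ) := by
    rw [h2]
    simp only [nc, add_sub_cancel_left]
    exact Finset.sum_congr rfl fun d _ => by rw [finsum_one]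
  have h5 : ‖((Pr K (qi K q)).ncard : ℂ) - (nc (qi K q) (qi K q) : ℂ)‖ ≤
      ∑ d ∈ T, 2 ^ n * (|C| * (q : ℝ) ^ (-(1 / 2) : ℝ) * N) := by
    rw [h4]
    refine (norm_sum_le _ _).trans (Finset.sum_le_sum fun d hd => ?_)
    rw [norm_mul]
    obtain ⟨hd1, hd2, hd3⟩ := hσ d hd
    refine mul_le_mul ?_ ?_ (norm_nonneg _) (by positivity)
    · rw [Complex.norm_intCast]
      exact_mod_cast hd3
    · rw [Complex.norm_natCast]
      refine ((hc2 d hd1).2 hd2).trans ?_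
      gcongr
      exact le_abs_self C
  rw [Finset.sum_const, nsmul_eq_mul] at h5
  have h6 : ‖((Pr K (qi K q)).ncard : ℂ) - (nc (qi K q) (qi K q) : ℂ)‖ =
      |((Pr K (qi K q)).ncard : ℝ) - N| := by
    have h9 : ((Pr K (qi K q)).ncard : ℂ) - (nc (qi K q) (qi K q) : ℂ) =
        ((((Pr K (qi K q)).ncard : ℝ) - N : ℝ) : ℂ) := by
      rw [hN]
      push_cast
      rfl
    rw [h9, Complex.norm_real, Real.norm_eq_abs]
  rw [h6] at h5
  have h7 : (T.card : ℝ) ≤ 2 ^ n := by exact_mod_cast hT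
  have h8 := (hq4 q hqd).le
  have h10 : |((Pr K (qi K q)).ncard : ℝ) - N| ≤ ε * N := by
    refine h5.trans ?_
    calc (T.card : ℝ) * (2 ^ n * (|C| * (q : ℝ) ^ (-(1 / 2) : ℝ) * N))
        ≤ 2 ^ n * (2 ^ n * (|C| * (q : ℝ) ^ (-(1 / 2) : ℝ) * N)) := by
          gcongr
      _ = (2 ^ n * 2 ^ n * |C|) * (q : ℝ) ^ (-(1 / 2) : ℝ) * N := by ring
      _ ≤ ε * N := by gcongr
  rw [abs_le] at h10
  linarith [h10.1]

theorem pf_CNT (hNGN : H37.CA.T_NGN) (hCFX : H37.CA.T_CFX) (hOR : H37.CV.T_OR)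
    (hHQ : H37.CV.T_HQ) : H37.CA.T_CNT := by
  classical
  intro F _ _ _ _ ε hε
  set n : ℕ := Module.finrank ℚ F with hn
  obtain ⟨c, C, q₃, hc, hq3⟩ := hHQ F
  obtain ⟨C', hC'⟩ := hCFX F
  have h1 : Tendsto (fun q : ℕ => (n * |C'| / c) * (q : ℝ) ^ (-1 : ℝ)) atTop (𝓝 0) := by
    have := (tendsto_rpow_neg_atTop (show (0 : ℝ) < 1 by norm_num)).comp
      tendsto_natCast_atTop_atTop
    simpa using this.const_mul (n * |C'| / c)
  obtain ⟨q₄, hq4⟩ := eventually_atTop.1 (h1.eventually (gt_mem_nhds hε))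
  refine ⟨max (max q₃ q₄) (n + 1), fun q hq hqq => ?_⟩
  have hqc : q₃ ≤ q := ((le_max_left _ _).trans (le_max_left _ _)).trans hqq
  have hqd : q₄ ≤ q := ((le_max_right _ _).trans (le_max_left _ _)).trans hqq
  have hqn : n < q := lt_of_lt_of_le (Nat.lt_succ_self n) ((le_max_right _ _).trans hqq)
  intro L _ _ _ _ β hβ
  obtain ⟨hc1, -⟩ := hq3 q hq hqc
  have hq0 : (0 : ℝ) < q := by exact_mod_cast hq.pos
  have hbij := hβ.1
  obtain ⟨hfin, -, -⟩ := hOR F (qi F q) (qi F q) (H46.CV.ne_bot_of_le hq le_rfl) le_rfl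
  have hcardeq : Nat.card (HF F L →* ℂˣ) = nc (qi F q) (qi F q) := by
    rw [nc, ← Set.ncard_univ, ← hbij.image_eq, Set.InjOn.ncard_image hbij.injOn]
  constructor
  · -- the characters which are not generic
    have : Fintype (F ≃ₐ[ℚ] F) := Fintype.ofFinite _
    have hcardG : Fintype.card (F ≃ₐ[ℚ] F) = n := by
      rw [← Nat.card_eq_fintype_card]
      exact IsGalois.card_aut_eq_finrank ℚ F
    set A : (F ≃ₐ[ℚ] F) → Set (Ideal (𝓞 F) → ℂ) := fun σ =>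
      {ψ | ψ ∈ Ch (qi F q) (qi F q) ∧ ∀ I : Ideal (𝓞 F), ψ (cj σ I) = ψ I} with hA
    have hsub : (Gen (HF F L))ᶜ ⊆ β '' (⋃ σ ∈ Finset.univ.filter (fun σ : F ≃ₐ[ℚ] F => σ ≠ 1),
        A σ) := by
      intro φ hφ
      obtain ⟨ψ, hψ, rfl⟩ := hbij.surjOn (Set.mem_univ φ)
      obtain ⟨σ, hσ, h⟩ := hNGN F L q hq β hβ ψ hψ hφ
      refine ⟨ψ, ?_, rfl⟩
      rw [Set.mem_iUnion₂]
      exact ⟨σ, by simpa using hσ, hψ, h⟩
    have hAfin : ∀ σ, (A σ).Finite := fun σ => hfin.subset fun ψ h => h.1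
    have hUfin : (⋃ σ ∈ Finset.univ.filter (fun σ : F ≃ₐ[ℚ] F => σ ≠ 1), A σ).Finite :=
      Set.Finite.biUnion (Finset.finite_toSet _) fun σ _ => hAfin σ
    have h2 : ((Gen (HF F L))ᶜ.ncard : ℝ) ≤ n * (|C'| * (q : ℝ) ^ ((n : ℝ) / 2)) := by
      calc ((Gen (HF F L))ᶜ.ncard : ℝ)
          ≤ ((β '' (⋃ σ ∈ Finset.univ.filter (fun σ : F ≃ₐ[ℚ] F => σ ≠ 1), A σ)).ncard : ℝ) := by
            exact_mod_cast Set.ncard_le_ncard hsub (hUfin.image β)
        _ ≤ ((⋃ σ ∈ Finset.univ.filter (fun σ : F ≃ₐ[ℚ] F => σ ≠ 1), A σ).ncard : ℝ) := by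
            exact_mod_cast Set.ncard_image_le hUfin
        _ ≤ ((∑ σ ∈ Finset.univ.filter (fun σ : F ≃ₐ[ℚ] F => σ ≠ 1), (A σ).ncard : ℕ) : ℝ) := by
            exact_mod_cast Finset.set_ncard_biUnion_le _ _
        _ ≤ ∑ _σ ∈ Finset.univ.filter (fun σ : F ≃ₐ[ℚ] F => σ ≠ 1),
              |C'| * (q : ℝ) ^ ((n : ℝ) / 2) := by
            push_cast
            refine Finset.sum_le_sum fun σ hσ => ?_
            refine (hC' q hq hqn σ (by simpa using hσ)).trans ?_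
            have := le_abs_self C'
            gcongr
        _ ≤ n * (|C'| * (q : ℝ) ^ ((n : ℝ) / 2)) := by
            rw [Finset.sum_const, nsmul_eq_mul]
            refine mul_le_mul_of_nonneg_right ?_ (by positivity)
            have : (Finset.univ.filter (fun σ : F ≃ₐ[ℚ] F => σ ≠ 1)).card ≤ n := by
              rw [← hcardG, ← Finset.card_univ]
              exact Finset.card_filter_le _ _
            exact_mod_cast this
    have h3 := (hq4 q hqd).le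
    calc ((Gen (HF F L))ᶜ.ncard : ℝ) ≤ n * (|C'| * (q : ℝ) ^ ((n : ℝ) / 2)) := h2
      _ = (n * |C'| / c * (q : ℝ) ^ (-1 : ℝ)) * (c * (q : ℝ) ^ ((n : ℝ) / 2 + 1)) := by
          have e1 : (q : ℝ) ^ (-1 : ℝ) * (q : ℝ) ^ ((n : ℝ) / 2 + 1) = (q : ℝ) ^ ((n : ℝ) / 2) := by
            rw [← Real.rpow_add hq0]
            congr 1
            ring
          have e2 : (n * |C'| / c * (q : ℝ) ^ (-1 : ℝ)) * (c * (q : ℝ) ^ ((n : ℝ) / 2 + 1)) =
              n * |C'| / c * c * ((q : ℝ) ^ (-1 : ℝ) * (q : ℝ) ^ ((n : ℝ) / 2 + 1)) := by ring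
          rw [e2, e1, div_mul_cancel₀ _ hc.ne']
          ring
      _ ≤ ε * (c * (q : ℝ) ^ ((n : ℝ) / 2 + 1)) := by gcongr
      _ ≤ ε * nc (qi F q) (qi F q) := by gcongr
  · exact_mod_cast hcardeq

end Pool.Agent.H46.CA
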